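import Pool.Agent.H34.FInj.Main

/-!
# An F-injective equidimensional complete local ring with a parameter ideal that is not
Frobenius closed

Let `k = 𝔽_p`, `S = k[[x, y, z, w]]` and `𝔞 = (x, y) ∩ (x, z - w²) ∩ (y, z)`.  The ring is
`R = {(f, g) ∈ S × S : f - g ∈ 𝔞}`, two copies of `S` glued along `S / 𝔞`, and the parameter ideal is
generated by the diagonal images of `x + y, w², z, xy`.  The element `(x y² w, 0)` lies in the Frobenius
closure of this ideal but not in the ideal.
-/

set_option autoImplicit false

open Pool.Agent.H34.FInj

namespace Pool.Agent.Results.MP_05c1ee_al.ParameterNotFrobClosed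

/-- For every prime `p` there is a Noetherian complete local ring `R` of characteristic `p`, which is
F-finite, equidimensional of dimension four and F-injective, with a parameter ideal that is not
Frobenius closed. -/
theorem result (p : ℕ) [Fact p.Prime] :
    ∃ (R : Type) (_ : CommRing R) (_ : IsNoetherianRing R) (_ : IsLocalRing R) (_ : CharP R p),
      IsAdicComplete (IsLocalRing.maximalIdeal R) R ∧ (frobenius R p).Finite ∧
      ringKrullDim R = 4 ∧ IsEquidimensional R ∧ IsFInjective R p ∧
      ∃ q : Ideal R, IsParameterIdeal q ∧ frobeniusClosure p q ≠ (q : Set R) := by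
  refine ⟨GR (ZMod p), inferInstance, inferInstance, inferInstance, inferInstance,
    complete_GR _, frobGR_finite ?_, dim_GR _, isEquidimensional_GR _, isFInjective_GR p _,
    qq _, isParameterIdeal_qq _, frobeniusClosure_ne p _⟩
  exact fun c => ⟨c, ZMod.pow_card c⟩

end Pool.Agent.Results.MP_05c1ee_al.ParameterNotFrobClosed
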